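import Pool.Agent.PFE.StmtsE1

/-! Squad PFE, row RTK: the relative Frobenius system over `R[y]` and the relative trace. -/

open scoped BigOperators

noncomputable section

namespace Pool.Agent.PFE.H23

open Pool.Agent.PFC.B1 (FS Split)

variable {R A X J Ω Ω' : Type} [CommRing R] [Ring A] [Algebra R A] [Group X] [Fintype J]
    [Fintype Ω] [Fintype Ω'] {y : A} {l : ℕ} {χ : X →* R}

theorem pow_mul_g (D : Yd R A X J Ω Ω' y l χ) (o : Ω) (i : ℕ) :
    y ^ i * D.g o = χ (D.deg o) ^ i • (D.g o * y ^ i) := by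
  induction i with
  | zero => simp
  | succ i ih =>
    rw [pow_succ, mul_assoc, D.gy, mul_smul_comm, ← mul_assoc, ih, smul_mul_assoc, smul_smul,
      mul_assoc, ← pow_succ, ← pow_succ']

theorem g'_mul_pow (D : Yd R A X J Ω Ω' y l χ) (o : Ω) (i : ℕ) :
    D.g' o * y ^ i = χ (D.deg o) ^ i • (y ^ i * D.g' o) := by
  induction i with
  | zero => simp
  | succ i ih =>
    rw [pow_succ, ← mul_assoc, ih, smul_mul_assoc, mul_assoc, D.g'y, mul_smul_comm, smul_smul,
      ← mul_assoc, ← pow_succ]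

theorem e_pi (D : Yd R A X J Ω Ω' y l χ) (a : A) : ∑ r, D.e r * D.pi (D.e' r * a) = a := by
  have hl := D.hl
  conv_rhs => rw [← D.fr a]
  rw [Fintype.sum_sum_type]
  congr 1
  · refine Finset.sum_congr rfl fun o _ => ?_
    show D.g o * (∑ i ∈ Finset.range l, D.d.lam (y ^ (l - 1 - i) * (D.g' o * a)) • y ^ i) = _
    rw [Finset.mul_sum]
    refine Finset.sum_congr rfl fun i hi => ?_
    have hi' : i < l := Finset.mem_range.1 hi
    rw [g'_mul_pow, pow_mul_g, smul_mul_assoc, map_smul, smul_smul, mul_smul_comm, smul_eq_mul,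
      mul_assoc (y ^ (l - 1 - i)), mul_right_comm, ← pow_add, show l - 1 - i + i = l - 1 by omega,
      D.χl, one_mul]
  · rw [Fintype.sum_prod_type]
    refine Finset.sum_congr rfl fun o _ => ?_
    rw [Finset.sum_range]
    refine Finset.sum_congr rfl fun i _ => ?_
    show y ^ (i : ℕ) * D.h o * (∑ k ∈ Finset.range l, D.d.lam (y ^ (l - 1 - k) *
      (D.h' o * y ^ (l - 1 - (i : ℕ)) * a)) • y ^ k) = _
    rw [Finset.mul_sum]
    refine Finset.sum_congr rfl fun k _ => ?_
    rw [mul_smul_comm, D.ds]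
    simp only [mul_assoc]

theorem lam_pi (D : Yd R A X J Ω Ω' y l χ) (u v : A) :
    D.d.lam (u * D.pi v) = D.d.lam (D.pi u * v) := by
  unfold Yd.pi
  rw [Finset.mul_sum, Finset.sum_mul, map_sum, map_sum]
  rw [← Finset.sum_range_reflect (fun i => D.d.lam
    (D.d.lam (y ^ (l - 1 - i) * u) • y ^ i * v))]
  refine Finset.sum_congr rfl fun i hi => ?_
  have hi' : i < l := Finset.mem_range.1 hi
  rw [mul_smul_comm, smul_mul_assoc, map_smul, map_smul, smul_eq_mul, smul_eq_mul,
    show l - 1 - (l - 1 - i) = i by omega, D.ds u, mul_comm]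

theorem nondeg (D : Yd R A X J Ω Ω' y l χ) (z w : A)
    (h : ∀ b, D.d.lam (b * z) = D.d.lam (b * w)) : z = w := by
  rw [← D.d.h1 z, ← D.d.h1 w]
  exact Finset.sum_congr rfl fun i _ => by rw [h]

theorem pi_e' (D : Yd R A X J Ω Ω' y l χ) (a : A) : ∑ r, D.pi (a * D.e r) * D.e' r = a := by
  refine nondeg D _ _ fun b => ?_
  rw [Finset.mul_sum, map_sum]
  have h1 : ∀ r, D.d.lam (b * (D.pi (a * D.e r) * D.e' r)) =
      D.d.lam (a * (D.e r * D.pi (D.e' r * b))) := by
    intro r
    rw [← mul_assoc, D.ds, ← mul_assoc, lam_pi, D.ds, mul_assoc]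
  rw [Finset.sum_congr rfl fun r _ => h1 r, ← map_sum, ← Finset.mul_sum, e_pi, D.ds]

theorem pi_comm (D : Yd R A X J Ω Ω' y l χ) (a a' : A) (h : y * a = a * y) :
    D.pi a' * a = a * D.pi a' := by
  have hc : Commute y a := h
  unfold Yd.pi
  rw [Finset.sum_mul, Finset.mul_sum]
  refine Finset.sum_congr rfl fun i _ => ?_
  rw [smul_mul_assoc, mul_smul_comm, (hc.pow_left i).eq]

theorem pi_y (D : Yd R A X J Ω Ω' y l χ) (a : A) : D.pi (y * a) = y * D.pi a := by
  have hl := D.hl
  have yl := D.yl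
  obtain ⟨m, rfl⟩ : ∃ m, l = m + 1 := ⟨l - 1, by omega⟩
  unfold Yd.pi
  rw [Finset.sum_range_succ', Finset.mul_sum, Finset.sum_range_succ]
  have h0 : D.d.lam (y ^ (m + 1 - 1 - 0) * (y * a)) • y ^ 0 = 0 := by
    rw [← mul_assoc, ← pow_succ, show m + 1 - 1 - 0 + 1 = m + 1 by omega, yl, zero_mul, map_zero,
      zero_smul]
  have h1 : y * (D.d.lam (y ^ (m + 1 - 1 - m) * a) • y ^ m) = 0 := by
    rw [mul_smul_comm, ← pow_succ', yl, smul_zero]
  rw [h0, h1]
  congr 1
  refine Finset.sum_congr rfl fun i hi => ?_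
  have hi' : i < m := Finset.mem_range.1 hi
  rw [mul_smul_comm, ← pow_succ', ← mul_assoc, ← pow_succ,
    show m + 1 - 1 - (i + 1) + 1 = m + 1 - 1 - i by omega]

theorem pi_ay (D : Yd R A X J Ω Ω' y l χ) (a : A) : D.pi (a * y) = D.pi (y * a) := by
  unfold Yd.pi
  refine Finset.sum_congr rfl fun i _ => ?_
  rw [← mul_assoc, D.ds, ← mul_assoc, ← pow_succ', ← mul_assoc, ← pow_succ]

theorem rtk : RtkStmt := by
  intro R A X J Ω Ω' _ _ _ _ _ _ _ y l χ D
  have hcy : ∀ a, y * D.pi a = D.pi a * y := fun a => (pi_comm D y a rfl).symm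
  refine ⟨e_pi D, pi_e' D, ?_, ?_, ?_, hcy, pi_y D, ?_⟩
  · intro a ha b
    unfold Yd.RT
    rw [Finset.mul_sum, Finset.sum_mul]
    calc ∑ r, b * (D.e r * a * D.e' r)
        = ∑ r, ∑ r', D.e r' * a * (D.pi (D.e' r' * b * D.e r) * D.e' r) := by
          refine Finset.sum_congr rfl fun r _ => ?_
          have h := e_pi D (b * D.e r)
          calc b * (D.e r * a * D.e' r) = b * D.e r * (a * D.e' r) := by
                simp only [mul_assoc]
            _ = (∑ r', D.e r' * D.pi (D.e' r' * (b * D.e r))) * (a * D.e' r) := by rw [h]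
            _ = _ := by
              rw [Finset.sum_mul]
              refine Finset.sum_congr rfl fun r' _ => ?_
              have h2 := pi_comm D a (D.e' r' * (b * D.e r)) ha
              rw [mul_assoc (D.e' r') b]
              calc D.e r' * D.pi (D.e' r' * (b * D.e r)) * (a * D.e' r)
                  = D.e r' * (D.pi (D.e' r' * (b * D.e r)) * a) * D.e' r := by
                    simp only [mul_assoc]
                _ = _ := by rw [h2]; simp only [mul_assoc]
      _ = ∑ r', ∑ r, D.e r' * a * (D.pi (D.e' r' * b * D.e r) * D.e' r) := Finset.sum_comm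
      _ = _ := by
          refine Finset.sum_congr rfl fun r' _ => ?_
          rw [← Finset.mul_sum, pi_e']
          simp only [mul_assoc]
  · intro z a hz
    unfold Yd.RT
    rw [Finset.mul_sum]
    refine Finset.sum_congr rfl fun r _ => ?_
    rw [← mul_assoc, ← hz (D.e r)]
    simp only [mul_assoc]
  · intro a
    unfold Yd.RT Yd.TA Tx
    have h1 : ∀ c, ∑ r, ∑ i ∈ Finset.range l, D.d.lam (y ^ (l - 1 - i) * D.e' r * c) •
        (D.e r * y ^ i) = c := by
      intro c
      conv_rhs => rw [← e_pi D c]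
      refine Finset.sum_congr rfl fun r _ => ?_
      unfold Yd.pi
      rw [Finset.mul_sum]
      refine Finset.sum_congr rfl fun i _ => ?_
      rw [mul_smul_comm, mul_assoc (y ^ (l - 1 - i))]
    calc ∑ r, D.e r * (∑ j ∈ Finset.range l, (1 : R) ^ (l - 1 - j) •
          (y ^ j * a * y ^ (l - 1 - j))) * D.e' r
        = ∑ r, ∑ j ∈ Finset.range l, (D.e r * y ^ j) * a * (y ^ (l - 1 - j) * D.e' r) := by
          refine Finset.sum_congr rfl fun r _ => ?_
          rw [Finset.mul_sum, Finset.sum_mul]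
          refine Finset.sum_congr rfl fun j _ => ?_
          rw [one_pow, one_smul]
          simp only [mul_assoc]
      _ = ∑ r, ∑ j ∈ Finset.range l, ∑ p, D.d.lam (y ^ (l - 1 - j) * D.e' r * D.d.b p) •
            ((D.e r * y ^ j) * a * D.d.b' p) := by
          refine Finset.sum_congr rfl fun r _ => Finset.sum_congr rfl fun j _ => ?_
          conv_lhs => rw [← D.d.h2 (y ^ (l - 1 - j) * D.e' r)]
          rw [Finset.mul_sum]
          exact Finset.sum_congr rfl fun p _ => by rw [mul_smul_comm]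
      _ = ∑ p, (∑ r, ∑ j ∈ Finset.range l, D.d.lam (y ^ (l - 1 - j) * D.e' r * D.d.b p) •
            (D.e r * y ^ j)) * a * D.d.b' p := by
          have h3 : ∀ r, ∑ j ∈ Finset.range l, ∑ p, D.d.lam (y ^ (l - 1 - j) * D.e' r * D.d.b p) •
              ((D.e r * y ^ j) * a * D.d.b' p) = ∑ p, ∑ j ∈ Finset.range l,
              D.d.lam (y ^ (l - 1 - j) * D.e' r * D.d.b p) •
              ((D.e r * y ^ j) * a * D.d.b' p) := fun r => Finset.sum_comm
          rw [Finset.sum_congr rfl fun r _ => h3 r, Finset.sum_comm]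
          refine Finset.sum_congr rfl fun p _ => ?_
          rw [Finset.sum_mul, Finset.sum_mul]
          refine Finset.sum_congr rfl fun r _ => ?_
          rw [Finset.sum_mul, Finset.sum_mul]
          refine Finset.sum_congr rfl fun j _ => ?_
          rw [smul_mul_assoc, smul_mul_assoc]
      _ = _ := Finset.sum_congr rfl fun p _ => by rw [h1]
  · intro a
    rw [pi_ay, pi_y, hcy]

end Pool.Agent.PFE.H23
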