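import Pool.Agent.PFE.StmtsE2
import Pool.Agent.Helper49_PFD.FPF

/-! Squad PFE, row YFP: fixed vectors modulo `p` lift. -/

open scoped BigOperators

noncomputable section

namespace Pool.Agent.PFE.H23

open MulOpposite
open Pool.Agent.PFC.B1 (FS Split BiM Sep)
open Pool.Agent.PFD.D2b (wrp FPl FrR)

section

variable {R Γ W N : Type} [CommRing R] [CommRing Γ] [Algebra R Γ] [CommGroup W]
    [AddCommGroup N] [Module R N]

theorem wrp_lm (om : W →* Γ) (B : BiM R Γ N) (w : W × W) (γ : Γ) (n : N) :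
    B.lm γ (wrp om B w n) = wrp om B w (B.lm γ n) := by
  show B.lm γ (B.lm (om w.1) (B.rm (op (om w.2⁻¹)) n)) =
    B.lm (om w.1) (B.rm (op (om w.2⁻¹)) (B.lm γ n))
  rw [← Module.End.mul_apply (B.lm γ), ← map_mul, mul_comm γ, map_mul, Module.End.mul_apply,
    B.comm γ]

theorem wrp_rm (om : W →* Γ) (B : BiM R Γ N) (w : W × W) (γ : Γ) (n : N) :
    B.rm (op γ) (wrp om B w n) = wrp om B w (B.rm (op γ) n) := by
  show B.rm (op γ) (B.lm (om w.1) (B.rm (op (om w.2⁻¹)) n)) =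
    B.lm (om w.1) (B.rm (op (om w.2⁻¹)) (B.rm (op γ) n))
  rw [← B.comm, ← Module.End.mul_apply (B.rm (op γ)), ← map_mul, ← op_mul,
    mul_comm (om w.2⁻¹) γ, op_mul, map_mul, Module.End.mul_apply]

end

/-- the action of a group on the index set of the frame -/
def actT (G Ω Ω' : Type) [Group G] [MulAction G Ω] [MulAction G Ω'] (l : ℕ) :
    MulAction G (Ω × Fin l ⊕ Ω' × (Fin l × Fin l)) where
  smul w := Sum.map (fun p => (w • p.1, p.2)) (fun p => (w • p.1, p.2))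
  one_smul := by
    rintro (p | p)
    · show Sum.inl ((1 : G) • p.1, p.2) = Sum.inl p
      rw [one_smul]
    · show Sum.inr ((1 : G) • p.1, p.2) = Sum.inr p
      rw [one_smul]
  mul_smul := by
    rintro a b (p | p)
    · show Sum.inl ((a * b) • p.1, p.2) = Sum.inl (a • b • p.1, p.2)
      rw [mul_smul]
    · show Sum.inr ((a * b) • p.1, p.2) = Sum.inr (a • b • p.1, p.2)
      rw [mul_smul]

theorem yfp : YfpStmt := by
  intro R Γ W N X Ω Ω' _ _ _ _ _ _ _ _ _ _ _ _ l G χ B Fr p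
  letI : MulAction (W × W) (Ω × Fin l ⊕ Ω' × (Fin l × Fin l)) := actT (W × W) Ω Ω' l
  let b : Ω × Fin l ⊕ Ω' × (Fin l × Fin l) → N :=
    Sum.elim (fun q => B.lm (G.y ^ (q.2 : ℕ)) (Fr.g q.1))
      (fun q => B.lm (G.y ^ (q.2.1 : ℕ)) (B.rm (op (G.y ^ (q.2.2 : ℕ))) (Fr.h q.1)))
  let c : Ω × Fin l ⊕ Ω' × (Fin l × Fin l) → (N →ₗ[R] R) :=
    Sum.elim (fun q => Fr.c q.1 ∘ₗ B.lm (G.y ^ (l - 1 - (q.2 : ℕ))))
      (fun q => Fr.d q.1 ∘ₗ B.lm (G.y ^ (l - 1 - (q.2.1 : ℕ))) ∘ₗ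
        B.rm (op (G.y ^ (l - 1 - (q.2.2 : ℕ)))))
  refine Pool.Agent.PFD.D2b.H49.fpf R (W × W) N (Ω × Fin l ⊕ Ω' × (Fin l × Fin l))
    (wrp G.om B) b c p ⟨?_, ?_, ?_⟩
  · rintro w (q | q)
    · show B.lm (G.y ^ (q.2 : ℕ)) (Fr.g (w • q.1)) =
        wrp G.om B w (B.lm (G.y ^ (q.2 : ℕ)) (Fr.g q.1))
      rw [Fr.gw, wrp_lm]
    · show B.lm (G.y ^ (q.2.1 : ℕ)) (B.rm (op (G.y ^ (q.2.2 : ℕ))) (Fr.h (w • q.1))) =
        wrp G.om B w (B.lm (G.y ^ (q.2.1 : ℕ)) (B.rm (op (G.y ^ (q.2.2 : ℕ))) (Fr.h q.1)))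
      rw [Fr.hw, wrp_rm, wrp_lm]
  · rintro w (q | q) n
    · show Fr.c (w • q.1) (B.lm (G.y ^ (l - 1 - (q.2 : ℕ))) (wrp G.om B w n)) =
        Fr.c q.1 (B.lm (G.y ^ (l - 1 - (q.2 : ℕ))) n)
      rw [wrp_lm, Fr.cw]
    · show Fr.d (w • q.1) (B.lm (G.y ^ (l - 1 - (q.2.1 : ℕ)))
          (B.rm (op (G.y ^ (l - 1 - (q.2.2 : ℕ)))) (wrp G.om B w n))) =
        Fr.d q.1 (B.lm (G.y ^ (l - 1 - (q.2.1 : ℕ)))
          (B.rm (op (G.y ^ (l - 1 - (q.2.2 : ℕ)))) n))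
      rw [wrp_rm, wrp_lm, Fr.dw]
  · intro n
    have h := Fr.fr n
    rw [LinearMap.id_apply] at h
    conv_rhs => rw [← h]
    rw [Fintype.sum_sum_type, Fintype.sum_prod_type, Fintype.sum_prod_type]
    congr 1
    · refine Finset.sum_congr rfl fun o _ => ?_
      rw [Finset.sum_range]
      rfl
    · refine Finset.sum_congr rfl fun o _ => ?_
      rw [Fintype.sum_prod_type, Finset.sum_range]
      refine Finset.sum_congr rfl fun i _ => ?_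
      rw [Finset.sum_range]
      rfl

end Pool.Agent.PFE.H23
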